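import Mathlib
import Pool.Agent.H6.W.JDef

set_option autoImplicit false
open Finset

/-! # Route W, E11: checks of the junction box and existence of admissible boxes

* `pos_corner` : the mark `c` has the coordinate of its convex corner; `corner_bd` : the corner is a
  boundary vertex of the box;
* `InW_lt` : marks of different windows are in the clockwise order of the windows;
* `exists_InW` : every window contains a mark if `δ` is small;
* `Ok_mono` : monotonicity in `δ`;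
* `exists_box` : admissible boxes exist for every `H`, chain `M, τ` and chunk `m`. -/

namespace Pool.Agent.H89.W

open Pool.Agent.H75.Perc hiding WL CT hh PB
open Pool.Agent.H75.TwoArm Pool.Agent.H75.Four Pool.Agent.H33.Q1
open Pool.Agent.Q1.M4 (Cell)
open Pool.Agent.H58.W Pool.Agent.H50.W Pool.Agent.H41.W Pool.Agent.H6.W

variable {b : JBox} {δ σ : ℝ}

/-- tile coordinates of the convex corner of the mark `c` -/
def corner (b : JBox) (n : ℤ) (c : Bool × ℕ) : ℤ × ℤ :=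
  if c.1 then (b.st c.2 * n, (b.H + c.2 + 1) * n) else (b.st c.2 * n, -(b.H + c.2 + 1) * n)

theorem st_lt (hb : b.Ok δ σ) {i j : ℕ} (hij : i < j) (hj : j < b.K) : b.st i < b.st j := by
  induction j with
  | zero => omega
  | succ j ih =>
    have h1 := hb.st_mono j hj
    rcases Nat.lt_succ_iff_lt_or_eq.1 hij with h | rfl
    · exact (ih h (by omega)).trans h1
    · exact h1

theorem st_le (hb : b.Ok δ σ) {i j : ℕ} (hij : i ≤ j) (hj : j < b.K) : b.st i ≤ b.st j := by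
  rcases hij.lt_or_eq with h | rfl
  · exact (st_lt hb h hj).le
  · exact le_rfl

theorem idx_lt (hb : b.Ok δ σ) {i j : ℕ} (hi : i < b.K) (h : b.st i < b.st j) : i < j := by
  by_contra hcon
  have := st_le hb (Nat.le_of_not_lt hcon) hi
  omega

theorem pos_corner (hb : b.Ok δ σ) {n : ℤ} (hn : 0 < n) {c : Bool × ℕ} (hc : c.2 < b.K) :
    b.pos n (corner b n c) = b.mark n c := by
  obtain ⟨h1, h2⟩ := hb.st_lo c.2 hc
  have h3 : b.st c.2 * n < (b.X : ℤ) * n := mul_lt_mul_of_pos_right h2 hn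
  obtain ⟨s, i⟩ := c
  simp only at h1 h2 h3 hc
  unfold JBox.pos JBox.mark corner
  cases s
  · have h4 : ¬ (0 : ℤ) ≤ -((b.H : ℤ) + i + 1) * n := by
      have : 0 < ((b.H : ℤ) + i + 1) * n := mul_pos (by positivity) hn
      intro h; linarith
    simp only [Bool.false_eq_true, if_false]
    rw [if_neg (by omega), if_neg h4]
    ring
  · have h4 : (0 : ℤ) ≤ ((b.H : ℤ) + i + 1) * n := by positivity
    simp only [if_true]
    rw [if_neg (by omega), if_pos h4]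
    ring

theorem mem_Q {c : Cell} : c ∈ b.Q ↔
    (-(b.X : ℤ) ≤ c.1 ∧ c.1 < b.X ∧ -(b.H : ℤ) ≤ c.2 ∧ c.2 < b.H) ∨
    ∃ i < b.K, b.st i ≤ c.1 ∧ c.1 < b.X ∧ (c.2 = b.H + i ∨ c.2 = -(b.H : ℤ) - i - 1) := by
  unfold JBox.Q RC
  simp only [mem_union, mem_product, mem_Ico, mem_biUnion, mem_range]
  constructor
  · rintro (⟨⟨a, b'⟩, c', d⟩ | ⟨i, hi, ⟨⟨a, b'⟩, c', d⟩ | ⟨⟨a, b'⟩, c', d⟩⟩)
    · exact Or.inl ⟨a, b', c', d⟩
    · exact Or.inr ⟨i, hi, a, b', Or.inl (by omega)⟩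
    · exact Or.inr ⟨i, hi, a, b', Or.inr (by omega)⟩
  · rintro (⟨a, b', c', d⟩ | ⟨i, hi, a, b', h | h⟩)
    · exact Or.inl ⟨⟨a, b'⟩, c', d⟩
    · exact Or.inr ⟨i, hi, Or.inl ⟨⟨a, b'⟩, by omega, by omega⟩⟩
    · exact Or.inr ⟨i, hi, Or.inr ⟨⟨a, b'⟩, by omega, by omega⟩⟩

/-- the box with its steps is contained in the strip `|y| ≤ H + K` -/
theorem Q_strip {c : Cell} (hc : c ∈ b.Q) : -((b.H : ℤ) + b.K) ≤ c.2 ∧ c.2 < (b.H : ℤ) + b.K := by
  rcases mem_Q.1 hc with ⟨_, _, h3, h4⟩ | ⟨i, hi, _, _, h | h⟩ <;> omega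

/-- the part `|x| < A` of the box, in a rectangle -/
theorem Q_sub_RC {A r : ℤ} (hr : (b.H : ℤ) + b.K ≤ r) {U : Finset Cell} (hU : U ⊆ b.Q)
    (hA : ∀ c ∈ U, -A ≤ c.1 ∧ c.1 < A) : U ⊆ RC (-A) A (-r) r := by
  intro c hc
  have h1 := Q_strip (hU hc)
  have h2 := hA c hc
  unfold RC
  simp only [mem_product, mem_Ico]
  omega

lemma tile_1 (p : ℤ × ℤ) : tt (p + (p + (1, 0))) = ((tv p).1, (tv p).2 - 1) := by
  unfold tt tv
  refine Prod.ext ?_ ?_ <;> simp only [Prod.fst_add, Prod.snd_add] <;> omega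

lemma tile_2 (p : ℤ × ℤ) : tt (p + (p + (0, 1))) = ((tv p).1, (tv p).2) := by
  unfold tt tv
  refine Prod.ext ?_ ?_ <;> simp only [Prod.fst_add, Prod.snd_add] <;> omega

lemma odd_1 (p : ℤ × ℤ) : ((p + (p + (1, 0))).1 + (p + (p + (1, 0))).2) % 2 = 1 := by
  simp only [Prod.fst_add, Prod.snd_add]; omega

lemma odd_2 (p : ℤ × ℤ) : ((p + (p + (0, 1))).1 + (p + (p + (0, 1))).2) % 2 = 1 := by
  simp only [Prod.fst_add, Prod.snd_add]; omega

lemma unit_1 (p : ℤ × ℤ) : IsUnit4 (p + (1, 0) - p) := by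
  rw [add_sub_cancel_left]; exact Or.inl rfl

lemma unit_2 (p : ℤ × ℤ) : IsUnit4 (p + (0, 1) - p) := by
  rw [add_sub_cancel_left]; exact Or.inr (Or.inl rfl)

section
variable {Q : Finset Cell} {n : ℤ} {p : ℤ × ℤ}

/-- the tile to the upper right of a vertex -/
lemma mem_up' (hn : 0 < n) : p + (p + (0, 1)) ∈ TL Q n ↔ ct n (tv p) ∈ Q := by
  rw [mem_TL hn, tile_2]
  exact ⟨fun h => h.2, fun h => ⟨odd_2 p, h⟩⟩

/-- the tile to the lower right of a vertex -/
lemma mem_down' (hn : 0 < n) : p + (p + (1, 0)) ∈ TL Q n ↔ ct n ((tv p).1, (tv p).2 - 1) ∈ Q := by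
  rw [mem_TL hn, tile_1]
  exact ⟨fun h => h.2, fun h => ⟨odd_1 p, h⟩⟩

end

lemma ct_corner {n a c : ℤ} (hn : 0 < n) : ct n (a * n, c * n) = (a, c) := by
  rw [ct_eq hn]
  refine ⟨⟨le_rfl, ?_⟩, le_rfl, ?_⟩ <;> simp only <;> linarith

lemma ct_corner' {n a c : ℤ} (hn : 0 < n) : ct n (a * n, c * n - 1) = (a, c - 1) := by
  rw [ct_eq hn]
  refine ⟨⟨le_rfl, ?_⟩, ?_, ?_⟩ <;> simp only <;> linarith

/-- **the corners are boundary vertices of the box** -/
theorem corner_bd (hb : b.Ok δ σ) {h : ℕ} (hh : 0 < h) {c : Bool × ℕ} (hc : c.2 < b.K) :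
    ∃ x, tv x = corner b (2 * h) c ∧ Tc (b.B h) x ∧ Ni (b.B h) x := by
  have hn : (0 : ℤ) < 2 * (h : ℤ) := by positivity
  obtain ⟨h1, h2⟩ := hb.st_lo c.2 hc
  obtain ⟨s, i⟩ := c
  simp only at h1 h2 hc
  have hnext : ∀ j < b.K, b.st j ≤ b.st i → j ≤ i := by
    intro j hj hle
    by_contra hcon
    have := st_lt hb (Nat.lt_of_not_le hcon) hj
    omega
  cases s
  · set x : ℤ × ℤ := (b.st i * h + (b.H + i + 1) * h, b.st i * h - (b.H + i + 1) * h) with hx
    have e : tv x = (b.st i * (2 * (h : ℤ)), -((b.H : ℤ) + i + 1) * (2 * h)) := by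
      rw [hx]; unfold tv
      refine Prod.ext ?_ ?_ <;> simp only <;> ring
    refine ⟨x, ?_, ⟨x + (0, 1), unit_2 x, ?_⟩, ⟨x + (1, 0), unit_1 x, ?_⟩⟩
    · rw [e]; unfold corner; simp
    · unfold JBox.B
      rw [mem_up' hn, e, ct_corner hn, mem_Q]
      exact Or.inr ⟨i, hc, le_rfl, h2, Or.inr (by simp only; ring)⟩
    · unfold JBox.B
      rw [mem_down' hn, e]
      simp only
      rw [ct_corner' hn, mem_Q]
      rintro (⟨_, _, h5, h6⟩ | ⟨j, hj, h5, h6, h7 | h7⟩)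
      · simp only at h5 h6; omega
      · simp only at h7; omega
      · simp only at h5 h7
        have := hnext j hj h5
        omega
  · set x : ℤ × ℤ := (b.st i * h - (b.H + i + 1) * h, b.st i * h + (b.H + i + 1) * h) with hx
    have e : tv x = (b.st i * (2 * (h : ℤ)), ((b.H : ℤ) + i + 1) * (2 * h)) := by
      rw [hx]; unfold tv
      refine Prod.ext ?_ ?_ <;> simp only <;> ring
    refine ⟨x, ?_, ⟨x + (1, 0), unit_1 x, ?_⟩, ⟨x + (0, 1), unit_2 x, ?_⟩⟩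
    · rw [e]; unfold corner; simp
    · unfold JBox.B
      rw [mem_down' hn, e]
      simp only
      rw [ct_corner' hn, mem_Q]
      exact Or.inr ⟨i, hc, le_rfl, h2, Or.inl (by simp only; ring)⟩
    · unfold JBox.B
      rw [mem_up' hn, e, ct_corner hn, mem_Q]
      rintro (⟨_, _, h5, h6⟩ | ⟨j, hj, h5, h6, h7 | h7⟩)
      · simp only at h5 h6; omega
      · simp only at h5 h7
        have := hnext j hj h5
        omega
      · simp only at h7; omega

/-! ### The windows -/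

theorem mark_true_lt (hb : b.Ok δ σ) {n : ℤ} (hn : 0 < n) {i j : ℕ} (hj : j < b.K) (hij : i < j) :
    b.mark n (true, i) < b.mark n (true, j) := by
  have h1 := st_lt hb hij hj
  unfold JBox.mark
  simp only [if_true]
  refine mul_lt_mul_of_pos_right ?_ hn
  omega

theorem mark_false_lt (hb : b.Ok δ σ) {n : ℤ} (hn : 0 < n) {i j : ℕ} (hj : j < b.K) (hij : i < j) :
    b.mark n (false, j) < b.mark n (false, i) := by
  have h1 := st_lt hb hij hj
  unfold JBox.mark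
  simp only [Bool.false_eq_true, if_false]
  have h2 : ((b.X : ℤ) - b.st j) * n < ((b.X : ℤ) - b.st i) * n :=
    mul_lt_mul_of_pos_right (by omega) hn
  have h3 : ((b.K : ℤ) - j - 1) * n < ((b.K : ℤ) - i - 1) * n :=
    mul_lt_mul_of_pos_right (by omega) hn
  linarith

theorem mark_tf_lt (hb : b.Ok δ σ) {n : ℤ} (hn : 0 < n) {i j : ℕ} (hi : i < b.K) (hj : j < b.K) :
    b.mark n (true, i) < b.mark n (false, j) := by
  obtain ⟨h1, h2⟩ := hb.st_lo i hi
  obtain ⟨h3, h4⟩ := hb.st_lo j hj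
  have h0 := hb.H0
  unfold JBox.mark
  simp only [Bool.false_eq_true, if_false, if_true]
  rw [← add_mul, ← add_mul]
  refine mul_lt_mul_of_pos_right ?_ hn
  omega

/-- **the windows are in clockwise order** -/
theorem InW_lt (hb : b.Ok δ σ) {n : ℤ} (hn : 0 < n) {L g t t' : ℕ} (ht : t < t')
    {c c' : Bool × ℕ} (h : b.InW L g t c) (h' : b.InW L g t' c') : b.mark n c < b.mark n c' := by
  obtain ⟨s, i⟩ := c
  obtain ⟨s', j⟩ := c'
  obtain ⟨hi, h⟩ := h
  obtain ⟨hj, h'⟩ := h'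
  simp only at hi hj h h'
  have hH : (0 : ℤ) < b.H := by exact_mod_cast hb.H0
  rcases h with ⟨rfl, h1, h2, h3⟩ | ⟨rfl, h0, h1, h2, h3⟩ <;>
    rcases h' with ⟨rfl, h1', h2', h3'⟩ | ⟨rfl, h0', h1', h2', h3'⟩
  · have h4 : ((t : ℤ) - L * g + 1) * b.H ≤ ((t' : ℤ) - L * g) * b.H :=
      mul_le_mul_of_nonneg_right (by omega) hH.le
    have h5 : (g : ℤ) * b.st i < g * b.st j := by linarith
    exact mark_true_lt hb hn hj (idx_lt hb hi (lt_of_mul_lt_mul_left h5 (by positivity)))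
  · exact mark_tf_lt hb hn hi hj
  · omega
  · have h4 : (3 * (L : ℤ) * g - (t' : ℤ)) * b.H ≤ (3 * L * g - 1 - (t : ℤ)) * b.H :=
      mul_le_mul_of_nonneg_right (by omega) hH.le
    have h5 : (g : ℤ) * b.st j < g * b.st i := by linarith
    exact mark_false_lt hb hn hi (idx_lt hb hj (lt_of_mul_lt_mul_left h5 (by positivity)))

/-- the windows are disjoint -/
theorem InW_unique (hb : b.Ok δ σ) {L g t t' : ℕ} {c : Bool × ℕ} (h : b.InW L g t c)
    (h' : b.InW L g t' c) : t = t' := by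
  rcases lt_trichotomy t t' with h1 | h1 | h1
  · exact absurd (InW_lt hb (n := 1) one_pos h1 h h') (lt_irrefl _)
  · exact h1
  · exact absurd (InW_lt hb (n := 1) one_pos h1 h' h) (lt_irrefl _)

lemma exists_st (hb : b.Ok δ σ) (hδ : 0 < δ) {L g : ℕ} (hg : 0 < g) (hL : δ * L ≤ 1)
    (hg' : δ * b.H + 1 ≤ b.H / g) {k : ℤ} (hk1 : -((L : ℤ) * g) ≤ k) (hk2 : k < (L : ℤ) * g) :
    ∃ i < b.K, k * b.H ≤ g * b.st i ∧ (g : ℤ) * b.st i < (k + 1) * b.H := by
  have hH : (0 : ℝ) < b.H := by exact_mod_cast hb.H0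
  have hg0 : (0 : ℝ) < g := by exact_mod_cast hg
  set y : ℝ := (k : ℝ) * b.H / g with hy
  have hyg : y * g = k * b.H := by rw [hy]; field_simp
  have e1 : -((L : ℝ) * b.H) ≤ y := by
    rw [hy, le_div_iff₀ hg0]
    have : -((L : ℝ) * g) ≤ (k : ℝ) := by exact_mod_cast hk1
    nlinarith
  have e2 : y ≤ (L : ℝ) * b.H := by
    rw [hy, div_le_iff₀ hg0]
    have : (k : ℝ) ≤ (L : ℝ) * g := by exact_mod_cast hk2.le
    nlinarith
  have c1 : -((L : ℤ) * b.H) ≤ ⌈y⌉ := by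
    have h1 : (-((L : ℤ) * b.H) : ℤ) ≤ ⌈y⌉ := by
      by_contra hcon
      push Not at hcon
      have h2 : ⌈y⌉ ≤ -((L : ℤ) * b.H) - 1 := by omega
      have h3 := Int.le_ceil y
      have h4 : ((⌈y⌉ : ℤ) : ℝ) ≤ -((L : ℝ) * b.H) - 1 := by exact_mod_cast h2
      linarith
    exact h1
  have c2 : ⌈y⌉ ≤ (L : ℤ) * b.H := by
    rw [Int.ceil_le]
    push_cast
    exact e2
  have c3 : |((⌈y⌉ : ℤ) : ℝ)| ≤ L * b.H := by
    rw [abs_le]
    constructor
    · exact_mod_cast c1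
    · exact_mod_cast c2
  obtain ⟨i, hi, h1, h2⟩ := hb.dense ⌈y⌉ (by
    calc δ * |((⌈y⌉ : ℤ) : ℝ)| ≤ δ * (L * b.H) := mul_le_mul_of_nonneg_left c3 hδ.le
      _ = (δ * L) * b.H := by ring
      _ ≤ 1 * b.H := mul_le_mul_of_nonneg_right hL hH.le
      _ = b.H := one_mul _)
  refine ⟨i, hi, ?_, ?_⟩
  · have h3 : y ≤ b.st i := le_trans (Int.le_ceil y) (by exact_mod_cast h1)
    have h4 : (k : ℝ) * b.H ≤ g * b.st i := by rw [← hyg]; nlinarith
    exact_mod_cast h4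
  · have h3 : (b.st i : ℝ) < y + 1 + δ * b.H := by
      have := Int.ceil_lt_add_one y
      linarith
    have h4 : (g : ℝ) * b.st i < (k + 1) * b.H := by
      have h5 : (g : ℝ) * b.st i < g * (y + 1 + δ * b.H) := mul_lt_mul_of_pos_left h3 hg0
      have h6 : (g : ℝ) * (δ * b.H + 1) ≤ b.H := by
        have := mul_le_mul_of_nonneg_left hg' hg0.le
        rwa [mul_div_cancel₀ _ hg0.ne'] at this
      have h7 : (g : ℝ) * y = k * b.H := by rw [mul_comm]; exact hyg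
      nlinarith
    exact_mod_cast h4

/-- **every window contains a mark** if `δ` is small -/
theorem exists_InW (hb : b.Ok δ σ) (hδ : 0 < δ) {L g : ℕ} (hg : 0 < g) (hL : δ * L ≤ 1)
    (hg' : δ * b.H + 1 ≤ b.H / g) {t : ℕ} (ht : t < 4 * L * g) : ∃ c, b.InW L g t c := by
  by_cases h : t < 2 * L * g
  · obtain ⟨i, hi, h1, h2⟩ := exists_st hb hδ hg hL hg' (k := (t : ℤ) - L * g) (by omega) (by
      have : (t : ℤ) < 2 * (L * g) := by
        have : t < 2 * (L * g) := by rw [← mul_assoc]; exact h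
        exact_mod_cast this
      linarith)
    exact ⟨(true, i), hi, Or.inl ⟨rfl, h, h1, h2⟩⟩
  · have ht1 : (2 : ℤ) * (L * g) ≤ t := by
      have : 2 * (L * g) ≤ t := by rw [← mul_assoc]; omega
      exact_mod_cast this
    have ht2 : (t : ℤ) < 4 * (L * g) := by
      have : t < 4 * (L * g) := by rw [← mul_assoc]; exact ht
      exact_mod_cast this
    obtain ⟨i, hi, h1, h2⟩ := exists_st hb hδ hg hL hg' (k := 3 * (L : ℤ) * g - 1 - t) (by
      linarith) (by linarith)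
    exact ⟨(false, i), hi, Or.inr ⟨rfl, by omega, ht, h1, by
      rw [show (3 * (L : ℤ) * g - 1 - t + 1) = 3 * L * g - t by ring] at h2
      exact h2⟩⟩

/-! ### Monotonicity in `δ` -/

theorem Ok_mono {δ' : ℝ} (hb : b.Ok δ σ) (h : δ ≤ δ') : b.Ok δ' σ where
  H0 := hb.H0
  M0 := hb.M0
  τ0 := hb.τ0
  dvd := hb.dvd
  st_mono := hb.st_mono
  st_lo := hb.st_lo
  len := hb.len
  M_le := hb.M_le.trans (mul_le_mul_of_nonneg_right h (Nat.cast_nonneg _))
  τ_le := hb.τ_le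
  K_le := hb.K_le.trans (mul_le_mul_of_nonneg_right h (Nat.cast_nonneg _))
  X_ge := hb.X_ge.trans (mul_le_mul_of_nonneg_right h (Nat.cast_nonneg _))
  dense := by
    intro x hx
    obtain ⟨i, hi, h1, h2⟩ := hb.dense x (le_trans (mul_le_mul_of_nonneg_right h (abs_nonneg _)) hx)
    refine ⟨i, hi, h1, h2.trans_le ?_⟩
    have := mul_le_mul_of_nonneg_right h (Nat.cast_nonneg b.H (α := ℝ))
    linarith

/-! ### Existence -/

/-- equally spaced corners: `2 N + 1` steps at the abscissas `-N d, …, N d` -/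
def mkBox (H X N d M τ m : ℕ) : JBox where
  H := H
  X := X
  K := 2 * N + 1
  st i := ((i : ℤ) - N) * d
  M := M
  τ := τ
  m := m

/-- `mkBox` is admissible -/
theorem mkBox_ok {H X N d M τ m : ℕ} (hδ : 0 < δ) (H0 : 0 < H) (M0 : 0 < M) (τ0 : 0 < τ)
    (d0 : 0 < d) (dvd : M ∣ X) (hX : N * d < X) (len : (m * M : ℝ) = σ * H)
    (M_le : (M : ℝ) ≤ δ * H) (τ_le : 64 * ((τ : ℝ) + X / M) ≤ M) (K_le : (2 * N + 1 : ℝ) ≤ δ * H)
    (X_ge : (H : ℝ) ≤ δ * X) (hd : (d : ℝ) ≤ δ * H) (hN : (H : ℝ) ≤ δ * (N * d)) :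
    (mkBox H X N d M τ m).Ok δ σ where
  H0 := H0
  M0 := M0
  τ0 := τ0
  dvd := dvd
  st_mono := by
    intro i _
    have h1 : (0 : ℤ) < d := by exact_mod_cast d0
    show ((i : ℤ) - N) * d < (((i + 1 : ℕ) : ℤ) - N) * d
    push_cast
    nlinarith
  st_lo := by
    intro i hi
    have h1 : (0 : ℤ) < d := by exact_mod_cast d0
    have h2 : (i : ℤ) < 2 * N + 1 := by
      have : i < 2 * N + 1 := hi
      exact_mod_cast this
    have h3 : (N : ℤ) * d < X := by exact_mod_cast hX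
    show -(X : ℤ) < ((i : ℤ) - N) * d ∧ ((i : ℤ) - N) * d < X
    constructor
    · have : -(N : ℤ) * d ≤ ((i : ℤ) - N) * d := mul_le_mul_of_nonneg_right (by omega) h1.le
      linarith
    · have : ((i : ℤ) - N) * d ≤ (N : ℤ) * d := mul_le_mul_of_nonneg_right (by omega) h1.le
      linarith
  len := len
  M_le := M_le
  τ_le := τ_le
  K_le := by
    show (((2 * N + 1 : ℕ)) : ℝ) ≤ δ * H
    push_cast; exact K_le
  X_ge := X_ge
  dense := by
    intro x hx
    have h1 : (0 : ℤ) < d := by exact_mod_cast d0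
    have hx1 : |(x : ℝ)| ≤ N * d := by
      have h2 : δ * |(x : ℝ)| ≤ δ * (N * d) := le_trans hx hN
      exact le_of_mul_le_mul_left h2 hδ
    obtain ⟨hx2, hx3⟩ := abs_le.1 hx1
    have hx2' : -((N : ℤ) * d) ≤ x := by exact_mod_cast hx2
    have hx3' : x ≤ (N : ℤ) * d := by exact_mod_cast hx3
    set q : ℤ := (x + d - 1) / d with hq
    have q1 : q * d ≤ x + d - 1 := Int.ediv_mul_le _ h1.ne'
    have q2 : x + d - 1 < (q + 1) * d := Int.lt_ediv_add_one_mul_self _ h1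
    have q3 : x ≤ q * d := by linarith
    have q4 : -(N : ℤ) ≤ q := by
      by_contra hcon
      have : q * d ≤ (-(N : ℤ) - 1) * d := mul_le_mul_of_nonneg_right (by omega) h1.le
      linarith
    have q5 : q ≤ (N : ℤ) := by
      by_contra hcon
      have : ((N : ℤ) + 1) * d ≤ q * d := mul_le_mul_of_nonneg_right (by omega) h1.le
      linarith
    refine ⟨(q + N).toNat, ?_, ?_, ?_⟩
    · show (q + N).toNat < 2 * N + 1
      omega
    · show x ≤ (((q + N).toNat : ℤ) - N) * d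
      rw [Int.toNat_of_nonneg (by omega)]
      rw [add_sub_cancel_right]; exact q3
    · show (((((q + N).toNat : ℤ) - N) * d : ℤ) : ℝ) < x + δ * H
      rw [Int.toNat_of_nonneg (by omega), add_sub_cancel_right]
      have : ((q * d : ℤ) : ℝ) ≤ x + d - 1 := by exact_mod_cast q1
      linarith

/-- **Existence of admissible boxes** with given half height, chain and chunk. -/
theorem exists_box (δ : ℝ) (hδ : 0 < δ) : ∃ δ' > (0 : ℝ), ∀ (H M τ m : ℕ) (σ : ℝ), 0 < M → 0 < τ →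
    (M : ℝ) ≤ δ' * H → 64 * ((τ : ℝ) + H / (δ' * M)) ≤ M → (m * M : ℝ) = σ * H →
    ∃ b : JBox, b.Ok δ σ ∧ b.H = H ∧ b.M = M ∧ b.τ = τ ∧ b.m = m := by
  obtain ⟨Λ, hΛ⟩ : ∃ Λ : ℝ, Λ = 1 / δ + δ + 1 + (4 / δ ^ 2 + 3) / δ := ⟨_, rfl⟩
  have e1 : 0 < 1 / δ := by positivity
  have e2 : 0 < (4 / δ ^ 2 + 3) / δ := by positivity
  have hΛ0 : 0 < Λ := by rw [hΛ]; linarith
  refine ⟨1 / Λ, by positivity, ?_⟩
  intro H M τ m σ hM hτ h1 h2 hlen
  have hM1 : (1 : ℝ) ≤ M := by exact_mod_cast hM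
  have hM0 : (0 : ℝ) < M := by linarith
  obtain ⟨A, hA⟩ : ∃ A, A = (H : ℝ) := ⟨_, rfl⟩
  rw [← hA] at h1 h2 hlen
  have hAM : Λ * M ≤ A := by
    have := mul_le_mul_of_nonneg_left h1 hΛ0.le
    rwa [← mul_assoc, mul_one_div_cancel hΛ0.ne', one_mul] at this
  have hAΛ : Λ ≤ A := by nlinarith
  have hA0 : 0 < A := by linarith
  have hH0 : 0 < H := by
    have : (0 : ℝ) < (H : ℝ) := by rw [← hA]; exact hA0
    exact_mod_cast this
  have hδA : 1 ≤ δ * A := by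
    have h3 : 1 / δ ≤ A := by rw [hΛ] at hAΛ; linarith
    rw [div_le_iff₀ hδ] at h3
    linarith
  have hKA : 4 / δ ^ 2 + 3 ≤ δ * A := by
    have h3 : (4 / δ ^ 2 + 3) / δ ≤ A := by rw [hΛ] at hAΛ; linarith
    rw [div_le_iff₀ hδ] at h3
    linarith
  obtain ⟨d, hd⟩ : ∃ d : ℕ, d = ⌊δ * A⌋₊ := ⟨_, rfl⟩
  have d1 : 1 ≤ d := by rw [hd]; exact (Nat.one_le_floor_iff _).2 hδA
  have d2 : (d : ℝ) ≤ δ * A := by rw [hd]; exact Nat.floor_le (by positivity)
  have d3 : δ * A < d + 1 := by rw [hd]; exact Nat.lt_floor_add_one _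
  have d1' : (1 : ℝ) ≤ d := by exact_mod_cast d1
  have d0' : (0 : ℝ) < d := by linarith
  have d4 : δ * A ≤ 2 * d := by linarith
  obtain ⟨N, hN⟩ : ∃ N : ℕ, N = ⌈A / (δ * d)⌉₊ := ⟨_, rfl⟩
  have N1 : A / (δ * d) ≤ N := by rw [hN]; exact Nat.le_ceil _
  have N2 : (N : ℝ) < A / (δ * d) + 1 := by rw [hN]; exact Nat.ceil_lt_add_one (by positivity)
  have N3 : A ≤ δ * (N * d) := by
    rw [div_le_iff₀ (by positivity)] at N1
    linarith
  have N4 : A / (δ * d) ≤ 2 / δ ^ 2 := by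
    rw [div_le_div_iff₀ (by positivity) (by positivity)]
    have := mul_le_mul_of_nonneg_left d4 hδ.le
    nlinarith
  have N5 : (N : ℝ) * d < A / δ + δ * A := by
    have h3 : (N : ℝ) * d < (A / (δ * d) + 1) * d := mul_lt_mul_of_pos_right N2 d0'
    have h4 : (A / (δ * d) + 1) * d = A / δ + d := by field_simp
    linarith
  obtain ⟨B, hB⟩ : ∃ B : ℝ, B = A / δ + δ * A := ⟨_, rfl⟩
  have hB0 : 0 < B := by rw [hB]; positivity
  obtain ⟨k, hk⟩ : ∃ k : ℕ, k = ⌊B / M⌋₊ + 1 := ⟨_, rfl⟩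
  have k1 : B / M < k := by
    have := Nat.lt_floor_add_one (B / M)
    rw [hk]; push_cast; exact this
  have k2 : (k : ℝ) ≤ B / M + 1 := by
    have := Nat.floor_le (show 0 ≤ B / M by positivity)
    rw [hk]; push_cast; linarith
  have X1 : B < (M * k : ℕ) := by
    rw [div_lt_iff₀ hM0] at k1
    push_cast; linarith
  have X2 : (((M * k : ℕ) : ℝ)) / M = k := by
    push_cast
    rw [mul_comm, mul_div_assoc, div_self hM0.ne', mul_one]
  refine ⟨mkBox H (M * k) N d M τ m, mkBox_ok hδ hH0 hM hτ d1 (dvd_mul_right _ _) ?_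
    (by rw [← hA]; exact hlen) ?_ ?_ ?_ ?_ (by rw [← hA]; exact d2) (by rw [← hA]; exact N3),
    rfl, rfl, rfl, rfl⟩
  · have h3 : ((N * d : ℕ) : ℝ) < ((M * k : ℕ) : ℝ) := by
      push_cast at X1 ⊢; linarith
    exact_mod_cast h3
  · have h3 : (M : ℝ) ≤ A / Λ := by rw [le_div_iff₀ hΛ0]; linarith
    have h4 : A / Λ ≤ δ * A := by
      rw [div_le_iff₀ hΛ0]
      have h5 : 1 ≤ δ * Λ := by
        have h6 : 1 / δ ≤ Λ := by rw [hΛ]; linarith
        rw [div_le_iff₀ hδ] at h6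
        linarith
      nlinarith
    rw [← hA]
    exact h3.trans h4
  · rw [X2]
    have h3 : A / (1 / Λ * M) = Λ * A / M := by
      field_simp
    rw [h3] at h2
    have h4 : B / M + 1 ≤ Λ * A / M := by
      rw [div_add_one hM0.ne', div_le_div_iff_of_pos_right hM0]
      have h5 : (M : ℝ) ≤ A := by
        have h6 : 1 ≤ Λ := by rw [hΛ]; linarith
        nlinarith
      have h7 : B + A ≤ Λ * A := by
        have h8 : 0 ≤ (4 / δ ^ 2 + 3) / δ * A := mul_nonneg e2.le hA0.le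
        have h9 : Λ * A = A / δ + δ * A + A + (4 / δ ^ 2 + 3) / δ * A := by rw [hΛ]; ring
        linarith
      linarith
    linarith
  · have h3 : (2 : ℝ) * N + 1 ≤ 4 / δ ^ 2 + 3 := by
      have h4 : (4 : ℝ) / δ ^ 2 = 2 * (2 / δ ^ 2) := by ring
      rw [h4]; linarith
    rw [← hA]
    linarith
  · have h3 : A / δ < ((M * k : ℕ) : ℝ) := by
      have : A / δ < B := by rw [hB]; linarith
      linarith
    rw [div_lt_iff₀ hδ] at h3
    rw [← hA]
    linarith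

/-- **Existence of admissible boxes, the form for the recursion** (`H = A m M`, `σ = 1 / A`). -/
theorem BoxEx (δ : ℝ) (hδ : 0 < δ) (A : ℕ) (hA : 1 ≤ A) : ∃ q : ℕ, 0 < q ∧ ∀ m M τ : ℕ, q ≤ m → 0 < τ →
    64 * (τ + q * m) ≤ M → ∃ b : JBox, b.Ok δ (1 / A) ∧ b.M = M ∧ b.τ = τ ∧ b.m = m ∧
      b.H = m * M * A ∧ (b.K : ℝ) ≤ δ * b.H := by
  obtain ⟨δ', hδ', h⟩ := exists_box δ hδ
  have hA0 : (0 : ℝ) < A := by exact_mod_cast (show 0 < A by omega)
  have hA1 : (1 : ℝ) ≤ A := by exact_mod_cast hA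
  obtain ⟨q, hq⟩ := exists_nat_gt (max (1 / δ') (A / δ'))
  have hq1 : 1 / δ' < q := lt_of_le_of_lt (le_max_left _ _) hq
  have hq2 : A / δ' < q := lt_of_le_of_lt (le_max_right _ _) hq
  have hq0 : (0 : ℝ) < q := lt_trans (by positivity) hq1
  refine ⟨q, by exact_mod_cast hq0, ?_⟩
  intro m M τ hm hτ hM
  have hm' : (q : ℝ) ≤ m := by exact_mod_cast hm
  have hm0 : (0 : ℝ) < m := lt_of_lt_of_le hq0 hm'
  have hMp : 0 < M := by omega
  have hM0 : (0 : ℝ) < M := by exact_mod_cast hMp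
  have hM' : 64 * ((τ : ℝ) + q * m) ≤ M := by exact_mod_cast hM
  have e1 : (M : ℝ) ≤ δ' * ((m * M * A : ℕ) : ℝ) := by
    push_cast
    rw [div_lt_iff₀ hδ'] at hq1
    have h1 : 1 ≤ δ' * m := by nlinarith
    have h2 : 1 ≤ δ' * m * A := by nlinarith
    nlinarith
  have e2 : 64 * ((τ : ℝ) + ((m * M * A : ℕ) : ℝ) / (δ' * M)) ≤ M := by
    push_cast
    have h3 : (m : ℝ) * M * A / (δ' * M) = m * (A / δ') := by field_simp
    rw [h3]
    have h4 : (m : ℝ) * (A / δ') ≤ q * m := by nlinarith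
    linarith
  have e3 : ((m : ℝ) * M) = 1 / A * ((m * M * A : ℕ) : ℝ) := by
    push_cast; field_simp
  obtain ⟨b, hb, b1, b2, b3, b4⟩ := h (m * M * A) M τ m (1 / A) hMp hτ e1 e2 e3
  exact ⟨b, hb, b2, b3, b4, b1, hb.K_le⟩

end Pool.Agent.H89.W
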