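import Mathlib
import Pool.Agent.H41.W.Four
import Pool.Agent.H72.W.WideBox
import Pool.Agent.H89.W.JOk

set_option autoImplicit false
open Finset

/-! # Route W, E3: pivotality for marks of the walk and `JBox.Piv`

* `pos_cw` : the coordinate `b.pos` along the clockwise boundary walk;
* `PivZ.rot`, `PivZ.shift` : rotation of the four marks;
* `Pl_sub` : the chunk is contained in the box;
* `piv_false`, `piv_true` : `PivZ` gives `JBox.Piv`. -/

namespace Pool.Agent.H89.W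

open Pool.Agent.H75.Perc hiding WL CT hh PB
open Pool.Agent.H75.TwoArm Pool.Agent.H75.Four Pool.Agent.H33.Q1
open Pool.Agent.Q1.M4 (Cell)
open Pool.Agent.H58.W Pool.Agent.H50.W Pool.Agent.H41.W Pool.Agent.H6.W
open Pool.Agent.H72.W (MReg gv gf bR kn ht bR_A bR_B bR_lo bR_hi bR_lab bR_v bR_disc mR_even)

/-! ### Positions along the walk -/

/-- the coordinate for a region `R` with right wall `x = X`, `|y| ≤ T` -/
def posf (X T : ℤ) (p : ℤ × ℤ) : ℤ :=
  if p.1 = X then 2 * X + T + (T - p.2)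
  else if 0 ≤ p.2 then p.1 + p.2 + X
  else 2 * X + 3 * T + (X - p.1) + (p.2 + T)

theorem posf_cw (R : MReg) {X T s : ℤ} (hA : R.A = -X) (hB : R.B = X) (h1 : R.hi (R.B - 1) = T)
    (h2 : R.lo (R.B - 1) = -T) (h3 : 0 < R.hi R.A) (h4 : R.lo R.A < 0) (hs : -X ≤ s)
    (hs' : s < -X + 2 * R.n) : posf X T (R.cw s) = s + X ∧
      (X % 2 = 0 → ((R.cw s).1 + (R.cw s).2) % 2 = s % 2) := by
  have hAB := R.AB
  have hn : R.n = 2 * X + 2 * T := by unfold MReg.n; rw [h1, h2, hA, hB]; ring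
  have hs1 : R.s1 = X + T := by unfold MReg.s1; rw [h1, hB]
  have hs2 : R.s2 = X + 3 * T := by unfold MReg.s2; rw [hs1, h1, h2]; ring
  have hfl : R.fl = -2 * X - 4 * T := by unfold MReg.fl; rw [hs2, h2, hB]; ring
  have hs0 : R.s0 = -X + R.lo R.A := by unfold MReg.s0; rw [hA]
  have hT : 0 < T := by
    have := R.hi_mono (x := R.A) (y := R.B - 1) le_rfl (by omega) (by omega)
    omega
  rcases lt_or_ge s (R.s0 + 2 * R.n) with c | c
  · rw [R.cw_eq (by omega) c.le]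
    rcases lt_or_ge s R.s1 with c1 | c1
    · obtain ⟨k1, k2, k3, k4, k5⟩ := R.part1 (by omega) c1
      rw [R.c0_1 c1.le]
      have hp : 0 ≤ s - R.U s := by
        rcases eq_or_lt_of_le k1 with e | e
        · rw [← e, hA]; omega
        · have := k5 e
          have := R.hi_mono (x := R.A) (y := R.U s - 1) le_rfl (by omega) (by omega)
          omega
      unfold posf
      simp only
      rw [if_neg (by omega), if_pos hp]
      exact ⟨by ring, fun _ => by omega⟩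
    rcases le_or_gt s R.s2 with c2 | c2
    · rw [R.c0_2 c1 c2]
      unfold posf
      simp only
      rw [if_pos hB, h1, hs1]
      exact ⟨by ring, fun _ => by omega⟩
    · obtain ⟨k1, k2, k3, k4, k5⟩ := R.part3 c2.le c
      rw [R.c0_3 c2.le]
      have hV : R.V (s + R.fl) ≠ R.B := by
        intro e
        have e1 := k5 e
        rw [e, h2] at e1
        omega
      have hp : s + R.fl + R.V (s + R.fl) < 0 := by
        have := R.lo_mono (x := R.A) (y := R.V (s + R.fl) - 1) le_rfl (by omega) (by omega)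
        omega
      unfold posf
      simp only
      rw [if_neg (by omega), if_neg (by omega)]
      exact ⟨by rw [hfl]; ring, fun _ => by omega⟩
  · have e : R.cw s = R.cw (s - 2 * R.n) := by
      have := R.cw_per (s - 2 * R.n)
      rw [sub_add_cancel] at this
      exact this
    have c1 : s - 2 * R.n < R.s1 := by omega
    have hlo := R.lo_mono (x := R.A) (y := R.B - 1) le_rfl (by omega) (by omega)
    rw [e, R.cw_eq (by omega) (by omega), R.c0_1 c1.le]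
    have hU : R.U (s - 2 * R.n) = R.A := by
      refine R.U_of le_rfl hAB (by omega) (fun h => absurd h (lt_irrefl _))
    rw [hU]
    unfold posf
    simp only
    rw [if_neg (by omega), if_neg (by omega)]
    exact ⟨by rw [hA, hn]; ring, fun _ => by omega⟩

section

variable {b : JBox} {δ σ : ℝ} {h : ℕ} {hb : b.Ok δ σ} {hh : 0 < h}

lemma kn_right (hb : b.Ok δ σ) : kn b ((b.X : ℤ) - 1) = b.K := by
  rcases Nat.eq_zero_or_pos b.K with h0 | h0
  · have := Pool.Agent.H72.W.kn_le (b := b) (x := (b.X : ℤ) - 1)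
    omega
  · have h1 := Pool.Agent.H72.W.lt_kn hb (i := b.K - 1) (x := (b.X : ℤ) - 1) (by omega) (by
      have := (hb.st_lo (b.K - 1) (by omega)).2
      omega)
    have h2 := Pool.Agent.H72.W.kn_le (b := b) (x := (b.X : ℤ) - 1)
    omega

lemma ht_right (hb : b.Ok δ σ) (hh : 0 < h) :
    ht b h ((b.X : ℤ) * (2 * (h : ℤ)) - 1) = ((b.H : ℤ) + b.K) * (2 * (h : ℤ)) := by
  unfold ht
  have : ((b.X : ℤ) * (2 * (h : ℤ)) - 1) / (2 * (h : ℤ)) = (b.X : ℤ) - 1 := by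
    rw [show (b.X : ℤ) * (2 * (h : ℤ)) - 1 = (2 * (h : ℤ) - 1) + ((b.X : ℤ) - 1) * (2 * (h : ℤ)) by
      ring, Int.add_mul_ediv_right _ _ (by positivity), Int.ediv_eq_zero_of_lt (by omega) (by omega)]
    ring
  rw [this, kn_right hb]

/-- **The coordinate along the clockwise boundary walk** of the box. -/
theorem pos_cw {s : ℤ} (h1 : -((b.X : ℤ) * (2 * (h : ℤ))) ≤ s)
    (h2 : s < -((b.X : ℤ) * (2 * (h : ℤ))) + 2 * (bR b h hb hh).n) :
    b.pos (2 * h) ((bR b h hb hh).cw s) = s + (b.X : ℤ) * (2 * (h : ℤ)) ∧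
      (((bR b h hb hh).cw s).1 + ((bR b h hb hh).cw s).2) % 2 = s % 2 := by
  have hp := Pool.Agent.H72.W.ht_pos (b := b) (x := -(b.X : ℤ) * (2 * (h : ℤ))) hb.H0 hh
  have e := posf_cw (bR b h hb hh) (X := (b.X : ℤ) * (2 * (h : ℤ)))
    (T := ((b.H : ℤ) + b.K) * (2 * (h : ℤ))) (s := s) (by rw [bR_A]; ring) (by rw [bR_B])
    (by rw [bR_hi, bR_B, ht_right hb hh]) (by rw [bR_lo, bR_B, ht_right hb hh])
    (by rw [bR_hi, bR_A]; exact hp) (by rw [bR_lo, bR_A]; omega) h1 h2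
  refine ⟨e.1, e.2 ?_⟩
  rw [show (b.X : ℤ) * (2 * (h : ℤ)) = 2 * (b.X * h) by ring]
  omega

lemma tv_gv {u : ℤ × ℤ} (hu : (u.1 + u.2) % 2 = 0) : tv (gv u) = u := by
  unfold tv gv
  refine Prod.ext ?_ ?_ <;> simp only <;> omega

/-- position of the boundary vertex `s` -/
theorem pos_bv {s : ℤ} (h1 : -((b.X : ℤ) * (2 * (h : ℤ))) ≤ 2 * s)
    (h2 : 2 * s < -((b.X : ℤ) * (2 * (h : ℤ))) + 2 * (bR b h hb hh).n) :
    b.pos (2 * h) (tv (gv ((bR b h hb hh).cw (2 * s)))) = 2 * s + (b.X : ℤ) * (2 * (h : ℤ)) := by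
  obtain ⟨e1, e2⟩ := pos_cw (hb := hb) (hh := hh) h1 h2
  rw [tv_gv (by omega), e1]

end

/-! ### Rotation and shift of the marks -/

section

variable {ω P : Finset (ℤ × ℤ)} {n : ℤ} {v : ℤ → ℤ × ℤ} {z0 z1 z2 z3 : ℤ}

lemma per_mul (hv : ∀ s, v (s + n) = v s) (m s : ℤ) : v (s + n * m) = v s := by
  have h1 : ∀ (k : ℕ) (s : ℤ), v (s + n * k) = v s := by
    intro k
    induction k with
    | zero => intro s; simp
    | succ k ih =>
      intro s
      rw [← ih s, ← hv (s + n * k)]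
      congr 1
      push_cast; ring
  rcases le_total 0 m with h | h
  · have := h1 m.toNat s
    rwa [Int.toNat_of_nonneg h] at this
  · have := h1 (-m).toNat (s + n * m)
    rw [Int.toNat_of_nonneg (by omega)] at this
    rw [← this]
    congr 1; ring

theorem PivZ.rot (hv : ∀ s, v (s + n) = v s) (h : PivZ ω P n v z0 z1 z2 z3) :
    PivZ ω P n v z2 z3 (z0 + 2 * n) (z1 + 2 * n) := by
  obtain ⟨⟨s, t, h1, h2, h3, h4, h5⟩, h6⟩ := h
  refine ⟨⟨t, s + n, by omega, by omega, by omega, by omega, ?_⟩, ?_⟩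
  · rw [hv]; exact h5.symm
  · intro s t x1 x2 x3 x4 hc
    refine h6 (t - n) s (by omega) (by omega) (by omega) (by omega) ?_
    have : v (t - n) = v t := by rw [← hv (t - n), sub_add_cancel]
    rw [this]
    exact hc.symm

theorem PivZ.shift (hv : ∀ s, v (s + n) = v s) (m : ℤ) (h : PivZ ω P n v z0 z1 z2 z3) :
    PivZ ω P n v (z0 + 2 * n * m) (z1 + 2 * n * m) (z2 + 2 * n * m) (z3 + 2 * n * m) := by
  obtain ⟨⟨s, t, h1, h2, h3, h4, h5⟩, h6⟩ := h
  have e : 2 * n * m = 2 * (n * m) := by ring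
  rw [e]
  refine ⟨⟨s + n * m, t + n * m, by omega, by omega, by omega, by omega, ?_⟩, ?_⟩
  · rw [per_mul hv, per_mul hv]; exact h5
  · intro s t x1 x2 x3 x4 hc
    refine h6 (s - n * m) (t - n * m) (by omega) (by omega) (by omega) (by omega) ?_
    have e1 : v (s - n * m) = v s := by rw [← per_mul hv m (s - n * m), sub_add_cancel]
    have e2 : v (t - n * m) = v t := by rw [← per_mul hv m (t - n * m), sub_add_cancel]
    rw [e1, e2]; exact hc

end

/-! ### The chunk -/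

section

variable {b : JBox} {δ σ : ℝ} {h : ℕ}

/-- size of the chunk: `m M ≤ X`, `τ + m ≤ H` -/
theorem chunk_le (hb : b.Ok δ σ) (hδ : δ ≤ 1) (hσ : σ ≤ 1) :
    b.m * b.M ≤ b.X ∧ b.τ + b.m ≤ b.H := by
  have hH : (0 : ℝ) < b.H := by exact_mod_cast hb.H0
  have hM : (0 : ℝ) < b.M := by exact_mod_cast hb.M0
  have hX : (0 : ℝ) ≤ b.X := Nat.cast_nonneg _
  have h1 : (b.m * b.M : ℝ) ≤ b.X := by
    rw [hb.len]
    have := hb.X_ge
    nlinarith
  have h2 : (b.m : ℝ) ≤ b.X / b.M := by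
    rw [le_div_iff₀ hM]; exact h1
  have h3 : ((b.τ : ℝ) + b.m) ≤ b.H := by
    have h4 := hb.τ_le
    have h5 := hb.M_le
    have h6 : (0 : ℝ) ≤ (b.τ : ℝ) + b.X / b.M := by positivity
    nlinarith
  constructor
  · exact_mod_cast h1
  · exact_mod_cast h3

theorem Pc_sub (hb : b.Ok δ σ) (hδ : δ ≤ 1) (hσ : σ ≤ 1) : b.Pc ⊆ b.Q := by
  obtain ⟨h1, h2⟩ := chunk_le hb hδ hσ
  intro c hc
  unfold JBox.Pc RC at hc
  simp only [mem_biUnion, mem_range, mem_product, mem_Ico] at hc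
  obtain ⟨i, hi, ⟨h3, h4⟩, h5, h6⟩ := hc
  have h7 : ((i : ℤ) + 1) * b.M ≤ b.X := by
    have : (i + 1) * b.M ≤ b.m * b.M := Nat.mul_le_mul_right _ (by omega)
    have : (i + 1) * b.M ≤ b.X := this.trans h1
    exact_mod_cast this
  have h8 : (0 : ℤ) ≤ (i : ℤ) * b.M := by positivity
  have h9 := Pool.Agent.H72.W.Ok.X_pos hb
  rw [mem_Q]
  left
  refine ⟨by omega, by omega, by omega, by omega⟩

theorem Pl_sub (hb : b.Ok δ σ) (hδ : δ ≤ 1) (hσ : σ ≤ 1) : b.Pl h ⊆ b.B h :=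
  Pool.Agent.H72.W.TL_mono (Pc_sub hb hδ hσ)

end

/-! ### `PivZ` gives `JBox.Piv` -/

section

variable {b : JBox} {δ σ : ℝ} {h : ℕ} {hb : b.Ok δ σ} {hh : 0 < h} {w : Finset (ℤ × ℤ)}
  {c1 c2 c3 c4 : Bool × ℕ}

lemma bR_n : (bR b h hb hh).n = 2 * ((b.X : ℤ) * (2 * (h : ℤ))) + 2 * (((b.H : ℤ) + b.K) * (2 * (h : ℤ))) := by
  unfold MReg.n
  rw [bR_hi, bR_lo, bR_B, bR_A, ht_right hb hh]
  ring

/-- the marks are in the fundamental interval -/
lemma mark_range (hb : b.Ok δ σ) (hh : 0 < h) {c : Bool × ℕ} (hc : c.2 < b.K) :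
    0 < b.mark (2 * h) c ∧ b.mark (2 * h) c < 2 * (bR b h hb hh).n := by
  have hn : (0 : ℤ) < 2 * (h : ℤ) := by positivity
  obtain ⟨s1, s2⟩ := hb.st_lo c.2 hc
  have hH := hb.H0
  rw [bR_n]
  unfold JBox.mark
  by_cases hc1 : c.1 = true
  · rw [if_pos hc1]
    have e1 : 0 < (b.st c.2 + b.H + c.2 + 1 + b.X) := by omega
    have e2 : (b.st c.2 + b.H + c.2 + 1 + b.X) < 4 * (b.X : ℤ) + 4 * (b.H + b.K) := by omega
    refine ⟨mul_pos e1 hn, ?_⟩
    have := mul_lt_mul_of_pos_right e2 hn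
    linarith
  · rw [if_neg hc1]
    have e1 : 0 < 2 * (b.X : ℤ) + 3 * (b.H + b.K) + (b.X - b.st c.2) + (b.K - c.2 - 1) := by omega
    have e2 : 2 * (b.X : ℤ) + 3 * (b.H + b.K) + (b.X - b.st c.2) + (b.K - c.2 - 1) <
      4 * (b.X : ℤ) + 4 * (b.H + b.K) := by omega
    have e3 := mul_pos e1 hn
    have e4 := mul_lt_mul_of_pos_right e2 hn
    constructor
    · linarith
    · linarith

/-- every boundary vertex is a vertex of the walk in the fundamental interval -/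
lemma bd_range (hb : b.Ok δ σ) (hh : 0 < h) {x : ℤ × ℤ} (h1 : Tc (b.B h) x) (h2 : Ni (b.B h) x) :
    ∃ s : ℤ, -((b.X : ℤ) * (2 * (h : ℤ))) ≤ 2 * s ∧
      2 * s < -((b.X : ℤ) * (2 * (h : ℤ))) + 2 * (bR b h hb hh).n ∧
      gv ((bR b h hb hh).cw (2 * s)) = x := by
  have D := bR_disc (hb := hb) (hh := hh)
  obtain ⟨s, hs⟩ := D.bd x h1 h2
  have hn := (bR b h hb hh).n_pos
  set N := (bR b h hb hh).n with hN
  set a : ℤ := -((b.X : ℤ) * h) with ha
  have e0 : -((b.X : ℤ) * (2 * (h : ℤ))) = 2 * a := by rw [ha]; ring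
  have r1 := Int.emod_nonneg (s - a) hn.ne'
  have r2 := Int.emod_lt_of_pos (s - a) hn
  have r3 := Int.emod_add_mul_ediv (s - a) N
  refine ⟨a + (s - a) % N, by rw [e0]; omega, by rw [e0]; omega, ?_⟩
  rw [← hs]
  have := per_mul (v := fun s => gv ((bR b h hb hh).cw (2 * s))) D.vper (-((s - a) / N)) s
  rw [← this]
  congr 3
  linarith

theorem piv_false (hPl : b.Pl h ⊆ b.B h) (k1 : c1.2 < b.K) (k2 : c2.2 < b.K) (k3 : c3.2 < b.K)
    (k4 : c4.2 < b.K) (m12 : b.mark (2 * h) c1 < b.mark (2 * h) c2)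
    (_m23 : b.mark (2 * h) c2 < b.mark (2 * h) c3) (m34 : b.mark (2 * h) c3 < b.mark (2 * h) c4)
    (hp : PivZ (w ∩ b.B h) (b.Pl h) (bR b h hb hh).n (fun s => gv ((bR b h hb hh).cw (2 * s)))
      (b.mark (2 * h) c1 - (b.X : ℤ) * (2 * (h : ℤ))) (b.mark (2 * h) c2 - (b.X : ℤ) * (2 * (h : ℤ)))
      (b.mark (2 * h) c3 - (b.X : ℤ) * (2 * (h : ℤ))) (b.mark (2 * h) c4 - (b.X : ℤ) * (2 * (h : ℤ)))) :
    b.Piv h false c1 c2 c3 c4 w := by
  have D := bR_disc (hb := hb) (hh := hh)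
  obtain ⟨r1, r1'⟩ := mark_range hb hh k1
  obtain ⟨r2, r2'⟩ := mark_range hb hh k2
  obtain ⟨r3, r3'⟩ := mark_range hb hh k3
  obtain ⟨r4, r4'⟩ := mark_range hb hh k4
  have hn := (bR b h hb hh).n_pos
  obtain ⟨⟨s, t, h1, h2, h3, h4, h5⟩, h6⟩ := hp
  constructor
  · have ht1 := bR_v (hb := hb) (hh := hh) t
    have hs1 := bR_v (hb := hb) (hh := hh) s
    refine ⟨_, _, ht1.1, ht1.2, hs1.1, hs1.2, ?_, ?_⟩
    · rw [if_neg (by decide), pos_bv (by omega) (by omega)]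
      refine ⟨⟨by omega, by omega⟩, ?_⟩
      rcases le_or_gt (-((b.X : ℤ) * (2 * (h : ℤ)))) (2 * s) with c | c
      · right
        rw [pos_bv c (by omega)]
        omega
      · left
        have e : gv ((bR b h hb hh).cw (2 * s)) = gv ((bR b h hb hh).cw (2 * (s + (bR b h hb hh).n))) :=
          (D.vper s).symm
        rw [e, pos_bv (by omega) (by omega)]
        omega
    · have e : (w ∪ b.Pl h) ∩ b.B h = w ∩ b.B h ∪ b.Pl h := by
        rw [union_inter_distrib_right, inter_eq_left.2 hPl]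
      rw [e]
      exact h5.symm
  · rintro ⟨x, y, x1, x2, y1, y2, hxy, hco⟩
    rw [if_neg (by decide)] at hxy
    obtain ⟨s, s1, s2, rfl⟩ := bd_range hb hh x1 x2
    obtain ⟨t, t1, t2, rfl⟩ := bd_range hb hh y1 y2
    rw [pos_bv s1 s2, pos_bv t1 t2] at hxy
    have e : (w \ b.Pl h) ∩ b.B h = (w ∩ b.B h) \ b.Pl h := by
      ext l; simp only [mem_inter, mem_sdiff]; tauto
    rw [e] at hco
    obtain ⟨⟨a1, a2⟩, a3 | a3⟩ := hxy
    · refine h6 (t - (bR b h hb hh).n) s (by omega) (by omega) (by omega) (by omega) ?_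
      have e1 : gv ((bR b h hb hh).cw (2 * (t - (bR b h hb hh).n))) = gv ((bR b h hb hh).cw (2 * t)) := by
        have := D.vper (t - (bR b h hb hh).n)
        simp only [sub_add_cancel] at this
        exact this.symm
      simp only
      rw [e1]
      exact hco.symm
    · exact h6 t s (by omega) (by omega) (by omega) (by omega) hco.symm

theorem piv_true (hPl : b.Pl h ⊆ b.B h) (k1 : c1.2 < b.K) (k2 : c2.2 < b.K) (k3 : c3.2 < b.K)
    (k4 : c4.2 < b.K) (_m12 : b.mark (2 * h) c1 < b.mark (2 * h) c2)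
    (m23 : b.mark (2 * h) c2 < b.mark (2 * h) c3) (m34 : b.mark (2 * h) c3 < b.mark (2 * h) c4)
    (hp : PivZ (w ∩ b.B h) (b.Pl h) (bR b h hb hh).n (fun s => gv ((bR b h hb hh).cw (2 * s)))
      (b.mark (2 * h) c2 - (b.X : ℤ) * (2 * (h : ℤ))) (b.mark (2 * h) c3 - (b.X : ℤ) * (2 * (h : ℤ)))
      (b.mark (2 * h) c4 - (b.X : ℤ) * (2 * (h : ℤ)))
      (b.mark (2 * h) c1 - (b.X : ℤ) * (2 * (h : ℤ)) + 2 * (bR b h hb hh).n)) :
    b.Piv h true c1 c2 c3 c4 w := by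
  have D := bR_disc (hb := hb) (hh := hh)
  obtain ⟨r1, r1'⟩ := mark_range hb hh k1
  obtain ⟨r2, r2'⟩ := mark_range hb hh k2
  obtain ⟨r3, r3'⟩ := mark_range hb hh k3
  obtain ⟨r4, r4'⟩ := mark_range hb hh k4
  have hn := (bR b h hb hh).n_pos
  obtain ⟨⟨s, t, h1, h2, h3, h4, h5⟩, h6⟩ := hp
  constructor
  · have ht1 := bR_v (hb := hb) (hh := hh) t
    have hs1 := bR_v (hb := hb) (hh := hh) s
    refine ⟨_, _, hs1.1, hs1.2, ht1.1, ht1.2, ?_, ?_⟩
    · rw [if_pos rfl, pos_bv (by omega) (by omega), pos_bv (by omega) (by omega)]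
      omega
    · have e : (w ∪ b.Pl h) ∩ b.B h = w ∩ b.B h ∪ b.Pl h := by
        rw [union_inter_distrib_right, inter_eq_left.2 hPl]
      rw [e]
      exact h5
  · rintro ⟨x, y, x1, x2, y1, y2, hxy, hco⟩
    rw [if_pos rfl] at hxy
    obtain ⟨s, s1, s2, rfl⟩ := bd_range hb hh x1 x2
    obtain ⟨t, t1, t2, rfl⟩ := bd_range hb hh y1 y2
    rw [pos_bv s1 s2, pos_bv t1 t2] at hxy
    have e : (w \ b.Pl h) ∩ b.B h = (w ∩ b.B h) \ b.Pl h := by
      ext l; simp only [mem_inter, mem_sdiff]; tauto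
    rw [e] at hco
    exact h6 s t (by omega) (by omega) (by omega) (by omega) hco

end

end Pool.Agent.H89.W
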